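import Pool.Agent.Helper68.SG2.GoalsT
import Pool.Agent.Helper65.SG.NQ

/-!
Packet SH2-NQT (helper4): the norm polynomial.
-/

set_option autoImplicit false

open MvPolynomial

namespace Pool.Agent.Helper4.SG2

open WeierstrassCurve Height
open Pool.Agent.Helper29.BL Pool.Agent.Helper92.Ru Pool.Agent.Helper42.SG
open Pool.Agent.Helper65.SG (GR gX gP sgn red NPol WD FRPO NQD NQR NQH ddM_le PlC_mul one_le_sq)
open Pool.Agent.Helper68.SG2

theorem aeval_redT (hNQN : NQNT) (hNQE : NQET) (hNQV : NQVT) {K : Type} [Field K] [NumberField K]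
    (T : ℕ → Bool) (W : ℕ → Affine K)
    (n M δ : ℕ) (e : ℕ → ℕ) (c : Idx n M δ e → K) (A : Type) [CommRing A] [Algebra K A]
    (X Ψ : ℕ → A) (hX : OnT T W n X Ψ) :
    aeval (fun h : Fin (2 * n + 2) => X h.val) (red W n (QhT T W n M δ e c)) =
      ∏ ε : Fin (2 * n) → ℤˣ, P0T T W n M δ e c X (sgn n ε Ψ) := by
  rw [hNQV K T W n (QhT T W n M δ e c) A X Ψ hX (hNQE K T W n M δ e c), QhT, map_prod]
  refine Finset.prod_congr rfl fun ε _ => ?_
  rw [PeT]
  refine hNQN K T W n M δ e c (GR K n) A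
    (aeval (Sum.elim (fun h : Fin (2 * n + 2) => X h.val) fun h : Fin (2 * n + 2) => Ψ h.val))
    (gX K n) (sgn n ε (gP K n)) X (sgn n ε Ψ) fun h hh => ⟨?_, ?_⟩
  · simp [gX, hh]
  · unfold sgn
    split_ifs with h2
    · simp [gP, hh]
    · simp [gP, hh]

theorem exists_point_ne' {K : Type} [Field K] {n M δ : ℕ} {e : ℕ → ℕ} [Infinite K]
    (c : Idx n M δ e → K) (hc : c ≠ 0) :
    ∃ ξ0 : Fin 2 → K, (∀ i, ξ0 i ≠ 0) ∧
      ∃ α, ∑ β : Fin 2 → Fin δ, c (α, β) * ∏ i : Fin 2, ξ0 i ^ (β i).val ≠ 0 := by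
  classical
  obtain ⟨⟨α, β0⟩, hαβ⟩ := Function.ne_iff.1 hc
  by_contra hcon
  push Not at hcon
  obtain ⟨m, hm⟩ : ∃ m : (Fin 2 → Fin δ) → (Fin 2 →₀ ℕ),
      m = fun β => Finsupp.equivFunOnFinite.symm (fun i => (β i).val) := ⟨_, rfl⟩
  have hinj : Function.Injective m := by
    intro β β' h
    rw [hm] at h
    have h2 := Finsupp.equivFunOnFinite.symm.injective h
    funext i
    exact Fin.ext (congrFun h2 i)
  obtain ⟨p, hp⟩ : ∃ p : MvPolynomial (Fin 2) K, p = ∑ β, monomial (m β) (c (α, β)) := ⟨_, rfl⟩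
  have hp0 : p * (X 0 * X 1) = 0 := by
    refine MvPolynomial.funext fun x => ?_
    rw [map_zero, map_mul, map_mul, eval_X, eval_X]
    by_cases h0 : x 0 = 0
    · rw [h0, zero_mul, mul_zero]
    by_cases h1 : x 1 = 0
    · rw [h1, mul_zero, mul_zero]
    have hx : ∀ i, x i ≠ 0 := by
      intro i
      fin_cases i
      · exact h0
      · exact h1
    have h2 : eval x p = 0 := by
      rw [hp, map_sum, ← hcon x hx α]
      refine Finset.sum_congr rfl fun β _ => ?_
      rw [eval_monomial, hm]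
      congr 1
      rw [Finsupp.prod_fintype _ _ (by simp)]
      rfl
    rw [h2, zero_mul]
  have hp1 : p = 0 := by
    rcases mul_eq_zero.mp hp0 with h | h
    · exact h
    · rcases mul_eq_zero.mp h with h | h
      · exact absurd h (X_ne_zero _)
      · exact absurd h (X_ne_zero _)
  have : coeff (m β0) p = c (α, β0) := by
    rw [hp, coeff_sum]
    rw [Finset.sum_eq_single β0]
    · simp
    · intro β _ hβ
      rw [coeff_monomial, if_neg fun h => hβ (hinj h)]
    · simp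
  rw [hp1, coeff_zero] at this
  exact hαβ this.symm

theorem t_NQT (hNZF : NZFT) (hFRPO : FRPO) (hNQB : NQBT) (hNQW : NQWT) (hNQN : NQNT)
    (hNQE : NQET) (hNQV : NQVT) (hNQD : NQD) (hNQR : NQR) (hNQH : NQH) : NQT := by
  classical
  intro K _ _ T W hW n M δ hn hM hδ
  obtain ⟨B1, hB1, h1⟩ := hNQB K T W n M δ hn
  obtain ⟨B2, hB2, h2⟩ := hNQR K W n
  obtain ⟨k0, hk0⟩ : ∃ k0, k0 = 4 ^ n * (2 * M + 1 + 2 * n * M + δ) := ⟨_, rfl⟩
  obtain ⟨B3, hB3⟩ : ∃ B3 : AbsoluteValue K ℝ → ℝ, B3 = fun v => B1 v * B2 v ^ k0 := ⟨_, rfl⟩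
  have hP3 : PlC B3 := hB3 ▸ PlC_mul hB1 hB2 k0
  obtain ⟨⟨C, hC, h3⟩, h4⟩ := hNQH K B3 hP3
  refine ⟨C * 4 ^ n, by positivity, fun e c A hc hA hint hhouse => ?_⟩
  have hev := fun (A : Type) [CommRing A] [Algebra K A] (X Ψ : ℕ → A) (hX : OnT T W n X Ψ) =>
    aeval_redT hNQN hNQE hNQV T W n M δ e c A X Ψ hX
  -- nonzero at a fixed point
  have hfix : ∀ ξ0 : Fin 2 → K, (∀ i : Fin 2, T i.val = true → ξ0 i ≠ 0) →
      (∃ α, ∑ β : Fin 2 → Fin δ, c (α, β) * ∏ i : Fin 2, ξ0 i ^ (β i).val ≠ 0) →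
      ∃ y : ℕ → AlgebraicClosure K, (∀ i : Fin 2, y (2 * n + i.val) =
        algebraMap K (AlgebraicClosure K) (ξ0 i)) ∧
        aeval (fun h : Fin (2 * n + 2) => y h.val) (red W n (QhT T W n M δ e c)) ≠ 0 := by
    rintro ξ0 hT0 ⟨α, hα⟩
    obtain ⟨X0, hX0⟩ : ∃ X0 : ℕ → AlgebraicClosure K, X0 = fun i =>
      if H : i < 2 then algebraMap K (AlgebraicClosure K) (ξ0 ⟨i, H⟩) else 0 := ⟨_, rfl⟩
    have hsq : ∀ i : ℕ, ∃ z : AlgebraicClosure K, i < 2 →
        (T i = true → X0 i * z = 1) ∧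
        (T i = false → z ^ 2 = Bf (mapW (AlgebraicClosure K) W i) (X0 i)) := by
      intro i
      by_cases hi : i < 2
      · by_cases hT : T i = true
        · refine ⟨(X0 i)⁻¹, fun _ => ⟨fun _ => mul_inv_cancel₀ ?_, fun h => ?_⟩⟩
          · rw [hX0]
            simp only [hi, dif_pos]
            exact (map_ne_zero _).2 (hT0 ⟨i, hi⟩ hT)
          · rw [hT] at h
            exact absurd h (by simp)
        · obtain ⟨z, hz⟩ := IsAlgClosed.exists_pow_nat_eq
            (Bf (mapW (AlgebraicClosure K) W i) (X0 i)) (n := 2) (by norm_num)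
          exact ⟨z, fun _ => ⟨fun h => absurd h hT, fun _ => hz⟩⟩
      · exact ⟨0, fun h => absurd h hi⟩
    choose Ψ0 hΨ0 using hsq
    obtain ⟨X, Ψ, hXΨ, hx0, hne⟩ := hNZF K T W hW n M δ e c (AlgebraicClosure K) X0 Ψ0
      (fun i hi => hΨ0 i hi) ⟨α, by
        have : ∑ β : Fin 2 → Fin δ, algebraMap K (AlgebraicClosure K) (c (α, β)) *
            ∏ i : Fin 2, X0 i.val ^ (β i).val =
            algebraMap K (AlgebraicClosure K) (∑ β : Fin 2 → Fin δ, c (α, β) *
              ∏ i : Fin 2, ξ0 i ^ (β i).val) := by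
          rw [map_sum]
          refine Finset.sum_congr rfl fun β _ => ?_
          rw [map_mul, map_prod]
          congr 1
          refine Finset.prod_congr rfl fun i _ => ?_
          rw [map_pow, hX0]
          simp only [i.isLt, dif_pos, Fin.eta]
        rw [this]
        exact (map_ne_zero _).2 hα⟩
    refine ⟨X, fun i => ?_, ?_⟩
    · rw [(hx0 i.val i.isLt).1, hX0]
      simp only [i.isLt, dif_pos, Fin.eta]
    · rw [hev (AlgebraicClosure K) X Ψ hXΨ]
      refine Finset.prod_ne_zero_iff.2 fun ε _ => ?_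
      have h5 := hne fun h => if H : h < 2 * n then ε ⟨h, H⟩ else 1
      have h6 : (fun h => if h < 2 * n then
          (((if H : h < 2 * n then ε ⟨h, H⟩ else 1 : ℤˣ) : ℤ) : AlgebraicClosure K) * Ψ h
            else Ψ h) = sgn n ε Ψ := by
        funext h
        unfold sgn
        split_ifs with h7
        · rfl
        · rfl
      rw [h6] at h5
      exact h5
  refine ⟨red W n (QhT T W n M δ e c), ?_, ?_, ?_, hfix, ?_⟩
  · obtain ⟨ξ0, hξn, hξ0⟩ := exists_point_ne' c hc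
    obtain ⟨y, _, hy⟩ := hfix ξ0 (fun i _ => hξn i) hξ0
    intro h0
    rw [h0, map_zero] at hy
    exact hy rfl
  · intro h
    exact hNQD K W n _ h _ (hNQW K T W n M δ e c h)
  · have h5 := h3 (2 * n + 2) (Helper42.SG.sq n e) (4 ^ n) A (red W n (QhT T W n M δ e c)) hA
      fun v hv m => ?_
    · refine h5.trans ?_
      push_cast
      have h6 : (Helper42.SG.sq n e : ℝ) ≤ 4 ^ n * (Helper42.SG.sq n e : ℝ) :=
        le_mul_of_one_le_left (by positivity) (one_le_pow₀ (by norm_num))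
      calc C * (4 ^ n * A + (Helper42.SG.sq n e : ℝ))
          ≤ C * (4 ^ n * A + 4 ^ n * (Helper42.SG.sq n e : ℝ)) := by gcongr
        _ = C * 4 ^ n * ((Helper42.SG.sq n e : ℝ) + A) := by ring
    · have hs : 0 ≤ cst v (Real.exp A) :=
        zero_le_one.trans (one_le_cst v (Real.one_le_exp hA))
      have h6 := h1 e c v (cst v (Real.exp A)) hs fun α => h4 (c α) A v (hint α) (hhouse α) hv
      have h7 := h2 (QhT T W n M δ e c) v _ (k0 * Helper42.SG.sq n e) h6 fun m hm h => by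
        have h8 := hNQW K T W n M δ e c h m hm
        have h9 := ddM_le n M δ e hn h.val
        rw [← hk0] at h9
        omega
      have h8 := (hFRPO K v (Fin (2 * n + 2))).2.2 _ _ m h7
      refine h8.trans (le_of_eq ?_)
      rw [hB3, mul_pow, ← pow_mul]
      ring
  · intro A _ _ X Ψ hX
    refine ⟨∏ ε ∈ (Finset.univ : Finset (Fin (2 * n) → ℤˣ)).erase 1,
      P0T T W n M δ e c X (sgn n ε Ψ), ?_⟩
    rw [hev A X Ψ hX, ← Finset.mul_prod_erase Finset.univ _ (Finset.mem_univ 1)]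
    congr 1
    have : sgn n (1 : Fin (2 * n) → ℤˣ) Ψ = Ψ := by
      funext h
      unfold sgn
      split_ifs
      · simp
      · rfl
    rw [this]
    rfl

end Pool.Agent.Helper4.SG2
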